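import Pool.Agent.N436.DF.Stm3

/-!
# Project DF (helper436), leaf `S3_m1beta` (helper504)
-/

set_option autoImplicit false

namespace Pool.Agent.N504.DF

open Finset Pool.Agent.N436.DF

/-- a function below `g` with prescribed sum -/
theorem ex_sub {ι : Type} [DecidableEq ι] (T : Finset ι) (g : ι → ℤ) (hg : ∀ i, 0 ≤ g i) (n : ℕ)
    (hn : (n : ℤ) ≤ ∑ i ∈ T, g i) :
    ∃ u : ι → ℤ, (∀ i, 0 ≤ u i ∧ u i ≤ g i) ∧ ∑ i ∈ T, u i = n := by
  induction n with
  | zero => exact ⟨fun _ => 0, fun i => ⟨le_rfl, hg i⟩, by simp⟩
  | succ n ih =>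
    push_cast at hn
    obtain ⟨u, hu, hs⟩ := ih (by linarith)
    have h1 : ∑ i ∈ T, u i < ∑ i ∈ T, g i := by rw [hs]; linarith
    obtain ⟨i, hi, hlt⟩ := Finset.exists_lt_of_sum_lt h1
    refine ⟨Function.update u i (u i + 1), fun j => ?_, ?_⟩
    · by_cases hj : j = i
      · subst hj
        rw [Function.update_self]
        have := hu j
        omega
      · rw [Function.update_of_ne hj]
        exact hu j
    · have h2 := Finset.sum_erase_add T (Function.update u i (u i + 1)) hi
      have h3 := Finset.sum_erase_add T u hi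
      have h4 : ∑ j ∈ T.erase i, Function.update u i (u i + 1) j = ∑ j ∈ T.erase i, u j :=
        Finset.sum_congr rfl fun j hj => Function.update_of_ne (Finset.ne_of_mem_erase hj) _ _
      rw [Function.update_self, h4] at h2
      push_cast
      linarith

theorem m1beta (hb : S3_base) (hst : S3_m1st) (hp0 : S3_m1p0) (ht : S3_two) : S3_m1beta := by
  intro V _ H S X v w f p M hcol hfv
  by_contra hn
  have hn3 : n1 H X (S \ X) f ≤ 3 := by omega
  have hok : Ok P13 H := M.top.mc.ok
  obtain ⟨-, hun, -, -, hmc⟩ := hb V H hok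
  obtain ⟨h2, h3⟩ := hmc S M.top.mc
  have h8 : hp H X = 8 := M.top.h8
  have hXS : X ⊆ S := M.top.sub
  have hwS : w ∈ S := (mem_sdiff.1 M.hw).1
  have hwX : w ∉ X := (mem_sdiff.1 M.hw).2
  -- the budget
  have bud : ∀ C, C ⊆ S \ X → C.Nonempty → 5 * mm H X C + 3 ≤ hp H C + 2 := by
    intro C hC hCn
    have hdis : Disjoint X C := by
      rw [Finset.disjoint_left]
      intro x hx hxC
      exact (mem_sdiff.1 (hC hxC)).2 hx
    have hCS : C ⊆ S := fun z hz => (mem_sdiff.1 (hC hz)).1
    have hUS : X ∪ C ⊆ S := union_subset hXS hCS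
    have e1 := hun X C hdis
    have hrr : rr H X C = if w ∈ C then 1 else 0 := by
      unfold rr
      have h4 : ∀ x ∈ X, ∑ z ∈ C, H.r x z = if x = v then (if w ∈ C then 1 else 0) else 0 := by
        intro x hx
        split_ifs with h5 h6
        · subst h5
          rw [Finset.sum_eq_single_of_mem w h6]
          · exact M.hr
          · intro z hz hzw
            rcases hok.r01 x z with h7 | h7
            · exact h7
            · exact absurd (M.only x hx z (hC hz) h7).2 hzw
        · subst h5
          refine Finset.sum_eq_zero fun z hz => ?_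
          rcases hok.r01 x z with h7 | h7
          · exact h7
          · exact absurd ((M.only x hx z (hC hz) h7).2 ▸ hz) h6
        · refine Finset.sum_eq_zero fun z hz => ?_
          rcases hok.r01 x z with h7 | h7
          · exact h7
          · exact absurd (M.only x hx z (hC hz) h7).1 h5
      rw [Finset.sum_congr rfl h4, Finset.sum_ite_eq', if_pos M.hv]
    by_cases hw : w ∈ C
    · rw [if_pos hw] at hrr
      by_cases hS : X ∪ C = S
      · have h5 := h2 S (Finset.Subset.refl _) ⟨w, hwS⟩
        rw [hS] at e1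
        omega
      · have h5 := (h3 (X ∪ C) hUS ⟨v, mem_union_left _ M.hv⟩ hS).2
        omega
    · rw [if_neg hw] at hrr
      obtain ⟨z, hz⟩ := hCn
      have h5 : X ⊂ X ∪ C := by
        refine ⟨subset_union_left, fun h => ?_⟩
        exact (mem_sdiff.1 (hC hz)).2 (h (mem_union_right _ hz))
      have h6 : RB H S (X ∪ C) := by
        refine ⟨v, mem_union_left _ M.hv, w, mem_sdiff.2 ⟨hwS, fun h => ?_⟩, M.hr⟩
        rcases mem_union.1 h with h | h
        · exact hwX h
        · exact hw h
      have h7 := M.top.max _ h5 hUS h6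
      omega
  have mnn : ∀ x z, 0 ≤ H.m x z := hok.m_nn
  -- `n1` as a sum
  have n1eq : ∀ C, n1 H X C f = ∑ z ∈ C, ∑ x ∈ X with f x = true, H.m x z := by
    intro C
    unfold n1
    exact Finset.sum_comm
  have mmeq : ∀ C, mm H X C = ∑ z ∈ C, ∑ x ∈ X, H.m x z := by
    intro C
    unfold mm
    exact Finset.sum_comm
  -- the colouring `f` without service
  have US2 : US H S X f p (fun _ _ => 0) := by
    refine ⟨hcol, fun _ _ => le_rfl, fun x z => mnn x z, fun x hx => ?_⟩
    rw [Finset.sum_const_zero, add_zero]
    exact hcol.cap x hx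
  by_cases hn1 : n1 H X (S \ X) f ≤ 1
  · obtain ⟨⟨g, q, hg, hgv, hg2⟩, -⟩ := hst V H S X v w M
    have US1 : US H S X g q (fun _ _ => 0) := by
      refine ⟨hg, fun _ _ => le_rfl, fun x z => mnn x z, fun x hx => ?_⟩
      rw [Finset.sum_const_zero, add_zero]
      exact hg.cap x hx
    refine ht V H S X v w g f q p (fun _ _ => 0) (fun _ _ => 0)
      (fun i z => if i = true then ∑ x ∈ X, H.m x z else ∑ x ∈ X with f x = true, H.m x z)
      M.top.mc hXS M.hv M.hw M.only US1 US2 hgv hfv ?_ ?_ ?_
    · intro i z
      split_ifs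
      · exact Finset.sum_nonneg fun x _ => mnn x z
      · exact Finset.sum_nonneg fun x _ => mnn x z
    · intro z hz
      simp only [sub_zero, if_true, Bool.false_eq_true, if_false]
      refine ⟨?_, ?_, le_rfl, ?_⟩
      · refine (Finset.sum_nonpos fun x hx => ?_).trans (Finset.sum_nonneg fun x _ => mnn x z)
        rw [mem_filter] at hx
        by_contra hc
        have h5 := hg2 x hx.1 z hz (by omega)
        rw [hx.2] at h5
        exact absurd h5 (by simp)
      · exact Finset.sum_le_sum_of_subset_of_nonneg (filter_subset _ _) fun x _ _ => mnn x z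
      · exact Finset.sum_le_sum_of_subset_of_nonneg (filter_subset _ _) fun x _ _ => mnn x z
    · intro C hC hCn
      have h5 := bud C hC hCn
      have h6 : n1 H X C f ≤ n1 H X (S \ X) f := by
        rw [n1eq, n1eq]
        exact Finset.sum_le_sum_of_subset_of_nonneg hC fun z _ _ =>
          Finset.sum_nonneg fun x _ => mnn x z
      unfold cost
      simp only [if_true, Bool.false_eq_true, if_false]
      rw [Finset.sum_add_distrib, ← Finset.mul_sum, ← Finset.mul_sum, ← mmeq, ← n1eq]
      omega
  · -- two units coloured 1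
    obtain ⟨G, hG⟩ : ∃ G : V × V → ℤ, G = fun y => if f y.1 = true then H.m y.1 y.2 else 0 :=
      ⟨_, rfl⟩
    have hG0 : ∀ y, 0 ≤ G y := by
      intro y
      rw [hG]
      dsimp only
      split_ifs
      · exact mnn _ _
      · exact le_rfl
    have hGs : ∀ C, ∑ y ∈ X ×ˢ C, G y = n1 H X C f := by
      intro C
      rw [Finset.sum_product, hG]
      unfold n1
      rw [Finset.sum_filter]
      refine Finset.sum_congr rfl fun x _ => ?_
      dsimp only
      split_ifs
      · rfl
      · exact Finset.sum_const_zero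
    obtain ⟨u, hu, hus⟩ := ex_sub (X ×ˢ (S \ X)) G hG0 2 (by rw [hGs]; push_cast; omega)
    push_cast at hus
    have hum : ∀ x z, 0 ≤ u (x, z) ∧ u (x, z) ≤ H.m x z := by
      intro x z
      refine ⟨(hu (x, z)).1, (hu (x, z)).2.trans ?_⟩
      rw [hG]
      dsimp only
      split_ifs
      · exact le_rfl
      · exact mnn _ _
    have huf : ∀ x z, f x = false → u (x, z) = 0 := by
      intro x z hx
      have h5 := hu (x, z)
      rw [hG] at h5
      dsimp only at h5
      rw [if_neg (by rw [hx]; simp)] at h5
      omega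
    have husum : ∑ x ∈ X, ∑ z ∈ S \ X, u (x, z) = 2 := by
      rw [← hus, Finset.sum_product]
    obtain ⟨-, -, h3rd⟩ := hst V H S X v w M
    obtain ⟨f₁, p₁, s₁, US1, hf1v, hav⟩ := h3rd (fun x z => u (x, z)) hum husum.le
    have hp2 := hp0 V H S X v w f₁ p₁ s₁ M US1 hf1v
    have hav2 : ∀ x ∈ X, ∀ z ∈ S \ X, u (x, z) = av H f₁ s₁ x z := by
      have h5 : ∀ x ∈ X, ∑ z ∈ S \ X, u (x, z) ≤ ∑ z ∈ S \ X, av H f₁ s₁ x z := fun x hx =>
        Finset.sum_le_sum fun z hz => hav x hx z hz
      have h6 : ∑ x ∈ X, ∑ z ∈ S \ X, u (x, z) = ∑ x ∈ X, ∑ z ∈ S \ X, av H f₁ s₁ x z :=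
        le_antisymm (Finset.sum_le_sum h5) (by rw [husum]; exact hp2)
      have h7 := (Finset.sum_eq_sum_iff_of_le h5).1 h6
      intro x hx
      exact (Finset.sum_eq_sum_iff_of_le fun z hz => hav x hx z hz).1 (h7 x hx)
    have hT : ∀ x ∈ X, ∀ z ∈ S \ X, f₁ x = true → H.m x z = u (x, z) := by
      intro x hx z hz h
      rw [hav2 x hx z hz]
      unfold av
      rw [if_pos h]
    have hF : ∀ x ∈ X, ∀ z ∈ S \ X, f₁ x = false → s₁ x z = u (x, z) := by
      intro x hx z hz h
      rw [hav2 x hx z hz]
      unfold av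
      rw [if_neg (by rw [h]; simp)]
    refine ht V H S X v w f₁ f p₁ p s₁ (fun _ _ => 0)
      (fun i z => if i = true then ∑ x ∈ X, (H.m x z - u (x, z))
        else ∑ x ∈ X with f x = true, H.m x z)
      M.top.mc hXS M.hv M.hw M.only US1 US2 hf1v hfv ?_ ?_ ?_
    · intro i z
      split_ifs
      · exact Finset.sum_nonneg fun x _ => by have := hum x z; omega
      · exact Finset.sum_nonneg fun x _ => mnn x z
    · intro z hz
      simp only [sub_zero, if_true, Bool.false_eq_true, if_false]
      refine ⟨?_, ?_, le_rfl, ?_⟩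
      · rw [Finset.sum_filter, Finset.sum_filter]
        refine Finset.sum_le_sum fun x hx => ?_
        by_cases h5 : f₁ x = true
        · rw [if_pos h5]
          have h6 := hT x hx z hz h5
          have h7 := US1.nn x z
          cases h8 : f x with
          | true => simp only [if_true]; omega
          | false =>
            have h9 := huf x z h8
            simp only [Bool.false_eq_true, if_false]
            omega
        · rw [if_neg h5]
          split_ifs
          · exact mnn x z
          · exact le_rfl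
      · rw [Finset.sum_filter]
        refine Finset.sum_le_sum fun x hx => ?_
        by_cases h5 : f₁ x = false
        · rw [if_pos h5, hF x hx z hz h5]
        · rw [if_neg h5]
          have := hum x z
          omega
      · rw [Finset.sum_filter]
        refine Finset.sum_le_sum fun x hx => ?_
        by_cases h5 : f x = false
        · rw [if_pos h5, huf x z h5]
          omega
        · rw [if_neg h5]
          have := hum x z
          omega
    · intro C hC hCn
      have h5 := bud C hC hCn
      obtain ⟨U, hU⟩ : ∃ U : ℤ, U = ∑ z ∈ C, ∑ x ∈ X, u (x, z) := ⟨_, rfl⟩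
      have hU0 : 0 ≤ U := by
        rw [hU]
        exact Finset.sum_nonneg fun z _ => Finset.sum_nonneg fun x _ => (hum x z).1
      have h6 : n1 H X C f ≤ U + 1 := by
        have h7 : ∑ y ∈ X ×ˢ C, (G y - u y) ≤ ∑ y ∈ X ×ˢ (S \ X), (G y - u y) :=
          Finset.sum_le_sum_of_subset_of_nonneg (product_subset_product_right hC)
            fun y _ _ => by have := (hu y).2; omega
        rw [Finset.sum_sub_distrib, Finset.sum_sub_distrib, hGs, hGs, hus] at h7
        have h8 : ∑ y ∈ X ×ˢ C, u y = U := by
          rw [hU, Finset.sum_product, Finset.sum_comm]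
        rw [h8] at h7
        omega
      unfold cost
      simp only [if_true, Bool.false_eq_true, if_false]
      rw [Finset.sum_add_distrib, ← Finset.mul_sum, ← Finset.mul_sum, ← n1eq]
      have h9 : ∑ z ∈ C, ∑ x ∈ X, (H.m x z - u (x, z)) = mm H X C - U := by
        rw [mmeq, hU, ← Finset.sum_sub_distrib]
        refine Finset.sum_congr rfl fun z _ => ?_
        rw [← Finset.sum_sub_distrib]
      rw [h9]
      omega

end Pool.Agent.N504.DF
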